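import Pool.Agent.H.MP_25a9e0_co.GLocB

/-!
Every cubic graph with few short cycles has a positive proportion of its chromatic roots near `-1`.
-/

namespace Pool.Agent.Results.MP_25a9e0_co.FewShortCycles

open Pool.Agent.H.MP_25a9e0_co

/-- For every `ε > 0` there are `g`, `δ > 0` and `c > 0` such that the chromatic polynomial of every
finite cubic graph with `n` vertices, at most `δ * n` of which lie on cycles of length less than
`g` (so every finite cubic graph of girth at least `g`), has at least `c * n` complex roots, counted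
with multiplicity, within `ε` of `-1`. Hence the infimum of the real parts of the chromatic roots of
cubic graphs (a nonempty set, bounded below) satisfies `m₃ ≤ -1`. -/
theorem result :
    (∀ ε : ℝ, 0 < ε → ∃ g : ℕ, ∃ δ : ℝ, 0 < δ ∧ ∃ c : ℝ, 0 < c ∧
      ∀ (V : Type) (_ : Finite V) (G : SimpleGraph V) (P : Polynomial ℤ),
        (∀ v, Nat.card (G.neighborSet v) = 3) → IsChromaticPolynomial G P →
        (Nat.card {v : V // ∃ w : G.Walk v v, w.IsCycle ∧ w.length < g} : ℝ) ≤ δ * Nat.card V →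
        c * (Nat.card V : ℝ) ≤ Multiset.card ((P.aroots ℂ).filter (fun z => ‖z + 1‖ < ε))) ∧
    (Complex.re '' cubicRoots).Nonempty ∧ BddBelow (Complex.re '' cubicRoots) ∧ m3 ≤ -1 := by
  have hI : ∀ ε : ℝ, 0 < ε → ∃ g : ℕ, ∃ δ : ℝ, 0 < δ ∧ ∃ c : ℝ, 0 < c ∧
      ∀ (V : Type) (_ : Finite V) (G : SimpleGraph V) (P : Polynomial ℤ),
        (∀ v, Nat.card (G.neighborSet v) = 3) → IsChromaticPolynomial G P →
        (Nat.card {v : V // ∃ w : G.Walk v v, w.IsCycle ∧ w.length < g} : ℝ) ≤ δ * Nat.card V →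
        c * (Nat.card V : ℝ) ≤ Multiset.card ((P.aroots ℂ).filter (fun z => ‖z + 1‖ < ε)) := by
    intro ε hε
    obtain ⟨L, _, hL⟩ := GG.near_many' ε hε
    refine ⟨2 * L + 1, 1 / (2 ^ L * 4 ^ L), by positivity, 1 / 2 ^ L, by positivity, ?_⟩
    intro V _ G P h3 hP hg
    classical
    have : Fintype V := Fintype.ofFinite V
    rcases Nat.eq_zero_or_pos (Nat.card V) with h0 | h0
    · rw [h0]
      simp
    · rw [Nat.card_eq_fintype_card (α := V)] at h0 hg ⊢
      have hs : Nat.card {v : V // ∃ w : G.Walk v v, w.IsCycle ∧ w.length < 2 * L + 1}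
          = GG.shortV G (2 * L) := by
        unfold GG.shortV
        simp only [Nat.lt_succ_iff]
      rw [hs, one_div_mul_eq_div, le_div_iff₀ (by positivity)] at hg
      have hg' : 2 ^ L * (GG.shortV G (2 * L) * 4 ^ L) ≤ Fintype.card V := by
        have h6 : ((2 ^ L * (GG.shortV G (2 * L) * 4 ^ L) : ℕ) : ℝ) ≤ (Fintype.card V : ℝ) := by
          push_cast
          linarith
        exact_mod_cast h6
      have h1 := hL (GG.toL G h3 h0 L hg')
      rw [GG.toL_pol G h3 h0 L hg' P hP, GG.toL_card] at h1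
      have h2 : (rts P).filter (fun z => ‖1 + z‖ < ε) = (P.aroots ℂ).filter
          (fun z => ‖z + 1‖ < ε) := by
        apply Multiset.filter_congr
        intro z _
        rw [add_comm]
      rw [h2] at h1
      have h4 : (Fintype.card V : ℝ) ≤ 2 ^ L *
          (Multiset.card ((P.aroots ℂ).filter (fun z => ‖z + 1‖ < ε)) : ℝ) := by exact_mod_cast h1
      rw [one_div_mul_eq_div, div_le_iff₀ (by positivity)]
      linarith
  have hI' : ∀ ε : ℝ, 0 < ε → ∃ g : ℕ, ∃ c : ℝ, 0 < c ∧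
      ∀ (V : Type) (_ : Finite V) (G : SimpleGraph V) (P : Polynomial ℤ),
        (∀ v, Nat.card (G.neighborSet v) = 3) → IsChromaticPolynomial G P →
        (g : ℕ∞) ≤ G.egirth →
        c * (Nat.card V : ℝ) ≤ Multiset.card ((P.aroots ℂ).filter (fun z => ‖z + 1‖ < ε)) := by
    intro ε hε
    obtain ⟨g, δ, hδ, c, hc, h⟩ := hI ε hε
    refine ⟨g, c, hc, fun V hV G P h3 hP hg => h V hV G P h3 hP ?_⟩
    have hempty : IsEmpty {v : V // ∃ w : G.Walk v v, w.IsCycle ∧ w.length < g} := by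
      refine ⟨fun x => ?_⟩
      obtain ⟨v, w, hw, hlt⟩ := x
      have h1 := SimpleGraph.le_egirth.1 hg v w hw
      have h2 : g ≤ w.length := by exact_mod_cast h1
      omega
    rw [Nat.card_of_isEmpty]
    have h1 : (0 : ℝ) ≤ Nat.card V := Nat.cast_nonneg _
    rw [Nat.cast_zero]
    positivity
  have hII : ∀ g : ℕ, ∃ (V : Type) (_ : Finite V) (_ : Nonempty V) (G : SimpleGraph V),
      (∀ v, Nat.card (G.neighborSet v) = 3) ∧ (g : ℕ∞) ≤ G.egirth := GG.exists_girth
  have hroot : ∀ ε : ℝ, 0 < ε → ∃ z ∈ cubicRoots, ‖z + 1‖ < ε := by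
    intro ε hε
    obtain ⟨g, c, hc, h⟩ := hI' ε hε
    obtain ⟨V, hV, hne, G, h3, hg⟩ := hII g
    have : Fintype V := Fintype.ofFinite V
    have hP : IsChromaticPolynomial G (pol G ∅) := by
      intro k _
      rw [pol_eval, card_col]
    have h1 := h V hV G (pol G ∅) h3 hP hg
    have h2 : 0 < c * (Nat.card V : ℝ) := mul_pos hc (by exact_mod_cast Nat.card_pos)
    have h4 : 0 < Multiset.card (((pol G ∅).aroots ℂ).filter (fun z => ‖z + 1‖ < ε)) := by
      exact_mod_cast h2.trans_le h1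
    obtain ⟨z, hz⟩ := Multiset.card_pos_iff_exists_mem.1 h4
    rw [Multiset.mem_filter] at hz
    exact ⟨z, ⟨V, hV, G, pol G ∅, h3, hP, (Polynomial.mem_aroots.1 hz.1).2⟩, hz.2⟩
  have hne : (Complex.re '' cubicRoots).Nonempty := by
    obtain ⟨z, hz, _⟩ := hroot 1 one_pos
    exact ⟨z.re, z, hz, rfl⟩
  have hbd : BddBelow (Complex.re '' cubicRoots) := ⟨_, cubic_low⟩
  refine ⟨hI, hne, hbd, ?_⟩
  apply le_of_forall_pos_le_add
  intro ε hε
  obtain ⟨z, hz, hzε⟩ := hroot ε hε
  have h1 : m3 ≤ z.re := csInf_le hbd ⟨z, hz, rfl⟩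
  have h2 := (abs_le.1 (Complex.abs_re_le_norm (z + 1))).2
  have h3 : (z + 1).re = z.re + 1 := by simp
  rw [h3] at h2
  linarith

end Pool.Agent.Results.MP_25a9e0_co.FewShortCycles
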