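import Pool.Agent.H.MP_25a9e0_co.Link

/-!
Lower bound for the real parts of chromatic roots of graphs of maximum degree at most three.
-/

namespace Pool.Agent.Results.MP_25a9e0_co.RealPartBound

open Pool.Agent.H.MP_25a9e0_co

/-- Every chromatic root of a finite graph of maximum degree at most three has real part greater
than `-5 / √6 = -2.0412...`; in particular `m₃ ≥ -5 / √6`. -/
theorem result :
    (∀ (V : Type) (_ : Finite V) (G : SimpleGraph V) (P : Polynomial ℤ) (z : ℂ),
      (∀ v, Nat.card (G.neighborSet v) ≤ 3) → IsChromaticPolynomial G P →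
        Polynomial.aeval z P = 0 → -(5 / Real.sqrt 6) < z.re) ∧
    -(5 / Real.sqrt 6) ≤ m3 := by
  refine ⟨half_plane, ?_⟩
  by_cases h : (Complex.re '' cubicRoots).Nonempty
  · exact le_csInf h cubic_low
  · have h2 : Complex.re '' cubicRoots = ∅ := Set.not_nonempty_iff_eq_empty.1 h
    unfold m3
    rw [h2, Real.sInf_empty]
    have : 0 ≤ 5 / Real.sqrt 6 := by positivity
    linarith

end Pool.Agent.Results.MP_25a9e0_co.RealPartBound
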